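import Pool.Agent.H94.RR.Base

set_option autoImplicit false

namespace Pool.Agent.H94.LD

open Finset SimpleGraph Pool.Agent.H94.RR
open scoped Classical

/-- **Counting lemma.** The vertices are divided into the blocks `p x = c`; on each block the vertices
`y` have few different neighbourhoods. -/
theorem count {V C T : Type} [Fintype V] [Fintype C] [Fintype T] {s t : ℕ} (G : SimpleGraph V)
    (hG : Fr s t G) (p : V → C) (τ : C → V → T)
    (h : ∀ x y y', x ≠ y → x ≠ y' → τ (p x) y = τ (p x) y' → (G.Adj x y → G.Adj x y')) :
    2 * Nat.card G.edgeSet ≤ (s - 1) * Fintype.card V * Fintype.card C +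
      (s + t - 1) * Fintype.card T * Fintype.card V := by
  have key : ∀ (c : C) (θ : T),
      ((univ : Finset (V × V)).filter fun z => G.Adj z.1 z.2 ∧ p z.1 = c ∧ τ c z.2 = θ).card ≤
        (s - 1) * (univ.filter fun y => τ c y = θ).card +
          (s + t - 1) * (univ.filter fun x => p x = c).card := by
    intro c θ
    set B := univ.filter fun y => τ c y = θ with hB
    set Z := univ.filter fun x => p x = c with hZ
    by_cases hBt : B.card ≤ s + t - 1
    · calc _ ≤ (Z ×ˢ B).card := by
            refine Finset.card_le_card fun z hz => ?_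
            simp only [Finset.mem_filter, Finset.mem_univ, true_and] at hz
            rw [Finset.mem_product]
            exact ⟨Finset.mem_filter.2 ⟨Finset.mem_univ _, hz.2.1⟩,
              Finset.mem_filter.2 ⟨Finset.mem_univ _, hz.2.2⟩⟩
        _ = B.card * Z.card := by rw [Finset.card_product, mul_comm]
        _ ≤ (s + t - 1) * Z.card := Nat.mul_le_mul_right _ hBt
        _ ≤ _ := Nat.le_add_left _ _
    · set A := Z.filter fun x => ∃ y ∈ B, G.Adj x y with hA
      have hAc : A.card ≤ s - 1 := by
        by_contra hc
        obtain ⟨X, hXA, hX⟩ := Finset.exists_subset_card_eq (show s ≤ A.card by omega)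
        have h1 : t ≤ (B \ X).card := by
          have := Finset.le_card_sdiff X B
          omega
        obtain ⟨Y, hYB, hY⟩ := Finset.exists_subset_card_eq h1
        refine hG X Y hX hY fun x hx y hy => ?_
        have hx' := hXA hx
        rw [hA, Finset.mem_filter] at hx'
        obtain ⟨hxZ, y', hy'B, hxy'⟩ := hx'
        have hyB := hYB hy
        rw [Finset.mem_sdiff] at hyB
        have hpx : p x = c := (Finset.mem_filter.1 hxZ).2
        refine h x y' y hxy'.ne (fun he => hyB.2 (he ▸ hx)) ?_ hxy'
        rw [hpx, (Finset.mem_filter.1 hy'B).2, (Finset.mem_filter.1 hyB.1).2]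
      calc _ ≤ (A ×ˢ B).card := by
            refine Finset.card_le_card fun z hz => ?_
            simp only [Finset.mem_filter, Finset.mem_univ, true_and] at hz
            have hzB : z.2 ∈ B := Finset.mem_filter.2 ⟨Finset.mem_univ _, hz.2.2⟩
            rw [Finset.mem_product]
            exact ⟨Finset.mem_filter.2 ⟨Finset.mem_filter.2 ⟨Finset.mem_univ _, hz.2.1⟩,
              z.2, hzB, hz.1⟩, hzB⟩
        _ = A.card * B.card := Finset.card_product _ _
        _ ≤ (s - 1) * B.card := Nat.mul_le_mul_right _ hAc
        _ ≤ _ := Nat.le_add_right _ _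
  have h2 : 2 * Nat.card G.edgeSet =
      ((univ : Finset (V × V)).filter fun z => G.Adj z.1 z.2).card := by
    rw [Nat.card_eq_fintype_card, ← edgeFinset_card, ← G.sum_degrees_eq_twice_card_edges,
      Finset.card_filter, ← Finset.univ_product_univ, Finset.sum_product]
    refine Finset.sum_congr rfl fun a _ => ?_
    rw [← Finset.card_filter, ← card_neighborFinset_eq_degree, neighborFinset_eq_filter]
  have h3 : ((univ : Finset (V × V)).filter fun z => G.Adj z.1 z.2).card =
      ∑ c : C, ∑ θ : T, ((univ : Finset (V × V)).filter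
        fun z => G.Adj z.1 z.2 ∧ p z.1 = c ∧ τ c z.2 = θ).card := by
    rw [Finset.card_eq_sum_card_fiberwise (f := fun z : V × V => p z.1) (t := univ)
      (fun _ _ => Finset.mem_coe.2 (Finset.mem_univ _))]
    refine Finset.sum_congr rfl fun c _ => ?_
    rw [Finset.card_eq_sum_card_fiberwise (f := fun z : V × V => τ c z.2) (t := univ)
      (fun _ _ => Finset.mem_coe.2 (Finset.mem_univ _))]
    refine Finset.sum_congr rfl fun θ _ => ?_
    congr 1
    ext z
    simp only [Finset.mem_filter, Finset.mem_univ, true_and, and_assoc]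
  rw [h2, h3]
  have h4 : ∀ c : C, ∑ θ : T, ((univ : Finset (V × V)).filter
        fun z => G.Adj z.1 z.2 ∧ p z.1 = c ∧ τ c z.2 = θ).card ≤
      (s - 1) * Fintype.card V +
        (s + t - 1) * Fintype.card T * (univ.filter fun x => p x = c).card := by
    intro c
    refine (Finset.sum_le_sum fun θ _ => key c θ).trans ?_
    rw [Finset.sum_add_distrib, ← Finset.mul_sum, Finset.sum_const, Finset.card_univ, smul_eq_mul]
    have h5 : ∑ θ : T, (univ.filter fun y => τ c y = θ).card = Fintype.card V := by
      rw [← Finset.card_univ, Finset.card_eq_sum_card_fiberwise (f := τ c) (t := univ)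
        (fun _ _ => Finset.mem_coe.2 (Finset.mem_univ _))]
    rw [h5]
    refine Nat.add_le_add_left (le_of_eq ?_) _
    ring
  refine (Finset.sum_le_sum fun c _ => h4 c).trans ?_
  rw [Finset.sum_add_distrib, Finset.sum_const, Finset.card_univ, smul_eq_mul, ← Finset.mul_sum]
  have h5 : ∑ c : C, (univ.filter fun x => p x = c).card = Fintype.card V := by
    rw [← Finset.card_univ, Finset.card_eq_sum_card_fiberwise (f := p) (t := univ)
      (fun _ _ => Finset.mem_coe.2 (Finset.mem_univ _))]
  rw [h5]
  refine Nat.add_le_add_right (le_of_eq ?_) _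
  ring

end Pool.Agent.H94.LD
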