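import Pool.Agent.H94.LD.Count

set_option autoImplicit false

namespace Pool.Agent.H94.LD

open Finset
open scoped Classical

/-- the exponents of the monomials of degree at most `d` in `k` variables, with a slack variable -/
abbrev Ex (k d : ℕ) := {κ : Option (Fin k) →₀ ℕ // κ ∈ (univ : Finset (Option (Fin k))).finsuppAntidiag d}

theorem card_Ex (k d : ℕ) : Fintype.card (Ex k d) = (d + k).choose k := by
  rw [Fintype.card_coe, Finset.card_finsuppAntidiag_nat_eq_choose, Finset.card_univ,
    Fintype.card_option, Fintype.card_fin]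
  rw [show k + 1 + d - 1 = d + k by omega, Nat.choose_symm_add]

/-- the exponent of the restricted monomial -/
noncomputable def key {m k : ℕ} (hk : k ≤ m) (d : ℕ) (e : Fin m →₀ ℕ) : Option (Fin k) →₀ ℕ :=
  Finsupp.equivFunOnFinite.symm fun o => o.elim (d - ∑ i : Fin k, e (Fin.castLE hk i))
    fun i => e (Fin.castLE hk i)

theorem key_mem {m k : ℕ} (hk : k ≤ m) (d : ℕ) (e : Fin m →₀ ℕ) (he : ∑ i, e i ≤ d) :
    key hk d e ∈ (univ : Finset (Option (Fin k))).finsuppAntidiag d := by
  rw [Finset.mem_finsuppAntidiag]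
  refine ⟨?_, Finset.subset_univ _⟩
  rw [Fintype.sum_option]
  have h : ∑ i : Fin k, e (Fin.castLE hk i) ≤ ∑ i, e i := by
    have h1 : ∑ i : Fin k, e (Fin.castLE hk i) =
        ∑ i ∈ (univ : Finset (Fin k)).map (Fin.castLEEmb hk), e i := by
      rw [Finset.sum_map]
      rfl
    rw [h1]
    exact Finset.sum_le_sum_of_subset (Finset.subset_univ _)
  simp only [key, Finsupp.equivFunOnFinite_symm_apply_apply, Option.elim]
  omega

theorem prod_split {F : Type} [CommMonoid F] {m k : ℕ} (hk : k ≤ m) (g : Fin m → F) :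
    ∏ i, g i = (∏ i : Fin k, g (Fin.castLE hk i)) * ∏ i : {i : Fin m // k ≤ (i : ℕ)}, g i := by
  rw [← Finset.prod_filter_mul_prod_filter_not univ (fun i : Fin m => (i : ℕ) < k)]
  congr 1
  · have h1 : ∏ i : Fin k, g (Fin.castLE hk i) =
        ∏ i ∈ (univ : Finset (Fin k)).map (Fin.castLEEmb hk), g i := by
      rw [Finset.prod_map]
      rfl
    rw [h1]
    refine Finset.prod_congr ?_ fun _ _ => rfl
    ext i
    simp only [Finset.mem_filter, Finset.mem_univ, true_and, Finset.mem_map]
    constructor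
    · intro hi
      exact ⟨⟨i, hi⟩, by ext; simp⟩
    · rintro ⟨j, rfl⟩
      simp
  · rw [Finset.prod_subtype (p := fun i : Fin m => k ≤ (i : ℕ))]
    intro i
    simp

/-- A polynomial of degree at most `d` on a flat of dimension `k`. -/
theorem restrict_eq {F : Type} [Field F] {m k d : ℕ} (hk : k ≤ m) (f : MvPolynomial (Fin m) F)
    (hf : f.totalDegree ≤ d) (c : {i : Fin m // k ≤ (i : ℕ)} → F) :
    ∃ w : Ex k d → F, ∀ z : Fin m → F, (∀ i : {i : Fin m // k ≤ (i : ℕ)}, z i = c i) →
      MvPolynomial.eval z f = ∑ κ : Ex k d, w κ * ∏ i : Fin k, z (Fin.castLE hk i) ^ κ.1 (some i) := by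
  refine ⟨fun κ => ∑ e ∈ f.support.filter fun e => key hk d e = κ.1,
    MvPolynomial.coeff e f * ∏ i, c i ^ e i, fun z hz => ?_⟩
  rw [MvPolynomial.eval_eq']
  have hmem : ∀ e ∈ f.support, key hk d e ∈ (univ : Finset (Option (Fin k))).finsuppAntidiag d := by
    intro e he
    refine key_mem hk d e (le_trans ?_ hf)
    have := MvPolynomial.le_totalDegree he
    rwa [Finsupp.sum_fintype _ _ (fun _ => rfl)] at this
  rw [← Finset.sum_fiberwise_of_maps_to hmem, ← Finset.sum_coe_sort]
  refine Finset.sum_congr rfl fun κ _ => ?_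
  rw [Finset.sum_mul]
  refine Finset.sum_congr rfl fun e he => ?_
  have hke : key hk d e = κ.1 := (Finset.mem_filter.1 he).2
  rw [prod_split hk, mul_assoc, mul_comm (∏ i : {i : Fin m // k ≤ (i : ℕ)}, c i ^ e i)]
  congr 2
  · refine Finset.prod_congr rfl fun i _ => ?_
    rw [← hke]
    simp [key]
  · refine Finset.prod_congr rfl fun i _ => ?_
    rw [hz i]

end Pool.Agent.H94.LD
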